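import Pool.Agent.W275.UB.Stm

set_option autoImplicit false

namespace Pool.Agent.W333.UB.Mon

/-- In a finite monoid with at most `w` elements the power `a^(w!)` is idempotent. -/
theorem pow_fact (M : Type) [Monoid M] [Finite M] (w : ℕ) (hw : Nat.card M ≤ w) (a : M) :
    a ^ w.factorial * a ^ w.factorial = a ^ w.factorial := by
  classical
  have := Fintype.ofFinite M
  have hc : Fintype.card M < Fintype.card (Fin (Nat.card M + 1)) := by
    rw [Fintype.card_fin, Nat.card_eq_fintype_card]
    exact Nat.lt_succ_self _
  obtain ⟨x, y, hne, hxy⟩ := Fintype.exists_ne_map_eq_of_card_lt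
    (fun i : Fin (Nat.card M + 1) => a ^ (i : ℕ)) hc
  have key : ∀ i j : ℕ, i < j → j ≤ Nat.card M → a ^ i = a ^ j →
      a ^ w.factorial * a ^ w.factorial = a ^ w.factorial := by
    intro i j hij hj h
    have h1 : ∀ m, i ≤ m → a ^ (m + (j - i)) = a ^ m := by
      intro m hm
      obtain ⟨k, rfl⟩ := Nat.exists_eq_add_of_le hm
      have h2 : i + k + (j - i) = j + k := by omega
      rw [h2, pow_add, ← h, ← pow_add]
    have h3 : ∀ t m, i ≤ m → a ^ (m + (j - i) * t) = a ^ m := by
      intro t
      induction t with
      | zero => intro m _; simp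
      | succ t ih =>
        intro m hm
        rw [Nat.mul_succ, ← add_assoc, h1 _ (by omega), ih m hm]
    have h4 : (j - i) ∣ w.factorial := Nat.dvd_factorial (by omega) (by omega)
    obtain ⟨t, ht⟩ := h4
    have h5 : i ≤ w.factorial := le_trans (by omega) (Nat.self_le_factorial w)
    rw [← pow_add]
    conv_lhs => rw [show w.factorial + w.factorial = w.factorial + (j - i) * t from by rw [← ht]]
    exact h3 t _ h5
  rcases lt_or_gt_of_ne (fun h => hne (Fin.ext h) : (x : ℕ) ≠ y) with h | h
  · exact key _ _ h (by have := y.2; omega) hxy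
  · exact key _ _ h (by have := x.2; omega) hxy.symm

/-- UB-MON. -/
theorem main : Pool.Agent.W275.UB.S_mon := fun M _ _ w hw a => pow_fact M w hw a

end Pool.Agent.W333.UB.Mon
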